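import Mathlib
import Pool.Agent.TH342.TU.Mq

/-!
# Ranks over all the multiquadratic fields at once, curves in short squares

The curves `E_t : y² = x (x - a) (x - b)` over `ℚ`, where `t = (a, b)` runs over the pairs of
integers, `a b (a - b) ≠ 0`, in a square of side `X` at distance at most `X ^ L` from the origin.
For almost all these curves, `rank + corank Ш[2^∞] ≤ 2 ^ s (ε log |D| + C)` for all the twists of
`E_t` over all the fields `ℚ(√d₁, …, √d_s)` at once, and all the moments of the suprema over all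
these fields are bounded outside of an exceptional set whose proportion tends to zero.
-/

set_option autoImplicit false

namespace Pool.Agent.Results.MP_7cad78_nt.AllMultiquadraticFields

open Finset

open Pool.Agent.TH841.NF.D (HasDiv crk rk)

/-- The curve `y² = x³ - 27 (A² - A B + B²) x + 27 (A + B) (9 A B - 2 (A + B)²)` over the field
`F`, which is isomorphic to `y² = x (x - A) (x - B)`, see `E_iso`. -/
def E (A B : ℤ) (F : Type) [Field F] : WeierstrassCurve F :=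
  ⟨0, 0, 0, ((-27 * (A ^ 2 - A * B + B ^ 2) : ℤ) : F),
    ((27 * (A + B) * (9 * A * B - 2 * (A + B) ^ 2) : ℤ) : F)⟩

/-- The pairs `(a, b)` with `N₁ < a ≤ N₁ + X` and `N₂ < b ≤ N₂ + X` for which
`y² = x (x - a) (x - b)` is an elliptic curve. -/
noncomputable def Sq (N₁ N₂ : ℤ) (X : ℕ) : Finset (ℤ × ℤ) :=
  (Ioc N₁ (N₁ + X) ×ˢ Ioc N₂ (N₂ + X)).filter (fun t => t.1 ≠ 0 ∧ t.2 ≠ 0 ∧ t.1 ≠ t.2)

/-- the number field `F` is generated by square roots of the integers `d i` -/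
def Gen (F : Type) [Field F] [NumberField F] {s : ℕ} (d : Fin s → ℤ) : Prop :=
  ∃ x : Fin s → F, (∀ i, x i ^ 2 = (d i : F)) ∧
    IntermediateField.adjoin ℚ (Set.range x) = ⊤

/-- `E A B F` and `y² = x (x - A) (x - B)` are isomorphic over `F`. -/
theorem E_iso (A B : ℤ) (F : Type) [Field F] [CharZero F] :
    ∃ C : WeierstrassCurve.VariableChange F,
    C • (⟨0, -((A : F) + B), 0, (A : F) * B, 0⟩ : WeierstrassCurve F) = E A B F := by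
  refine ⟨⟨(Units.mk0 (1 / 3 : F) (by norm_num)), ((A : F) + B) / 3, 0, 0⟩, ?_⟩
  unfold E
  ext
  · simp [WeierstrassCurve.variableChange_a₁]
  · rw [WeierstrassCurve.variableChange_a₂]
    simp
    ring
  · simp [WeierstrassCurve.variableChange_a₃]
  · rw [WeierstrassCurve.variableChange_a₄]
    simp
    ring
  · rw [WeierstrassCurve.variableChange_a₆]
    simp
    ring

/-- almost all the pairs of the square are in `Sq N₁ N₂ X` -/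
theorem card_Sq (N₁ N₂ : ℤ) (X : ℕ) : X ^ 2 ≤ (Sq N₁ N₂ X).card + 3 * X :=
  Pool.Agent.TH342.SQ.card_Sq N₁ N₂ X

/-- **Theorem.** For every `L` there are subsets `Z(N₁, N₂, X)` of the sets `Sq(N₁, N₂, X)` such
that, for `|N₁|, |N₂| ≤ X ^ L`:

1. the proportion of `Z(N₁, N₂, X)` in `Sq(N₁, N₂, X)` tends to zero as `X → ∞`, uniformly in
`N₁`, `N₂`;

2. for every `k` and every `ε > 0` there are a function `M` of the pairs `t = (a, b)` and a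
constant `C` such that for all nonzero integers `d₀`, `d₁`, …, `d_s` (`s ≥ 0`), all the fields
`F = ℚ(√d₁, …, √d_s)` and the twist `W : y² = x (x - d₀ a) (x - d₀ b)` of `E_t` over `F`, with
`D = d₀ d₁ ⋯ d_s`: the corank of `Ш(W/F)[2^∞]` is finite and
`2 ^ (k (rank W(F) + corank Ш(W/F)[2^∞])) ≤ (M(t) |D| ^ ε) ^ (2 ^ s)`; and such that the sum of
`M(t)` over `Sq(N₁, N₂, X)` without `Z(N₁, N₂, X)` is at most `C * #Sq(N₁, N₂, X)`;

3. for all `η, ε > 0` there are `C` and `X₀` such that for `X ≥ X₀` all but at most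
`η * #Sq(N₁, N₂, X)` of the `t` in `Sq(N₁, N₂, X)` satisfy
`rank W(F) + corank Ш(W/F)[2^∞] ≤ 2 ^ s (ε log |D| + C)` for all these `d₀`, …, `d_s`, `F` at
once. -/
theorem result (L : ℕ) : ∃ Z : ℤ → ℤ → ℕ → Finset (ℤ × ℤ),
    (∀ N₁ N₂ X, Z N₁ N₂ X ⊆ Sq N₁ N₂ X) ∧
    (∀ η : ℝ, 0 < η → ∃ X₀ : ℕ, ∀ X, X₀ ≤ X → ∀ N₁ N₂ : ℤ, |N₁| ≤ (X : ℤ) ^ L →
      |N₂| ≤ (X : ℤ) ^ L → ((Z N₁ N₂ X).card : ℝ) ≤ η * (Sq N₁ N₂ X).card) ∧
    (∀ (k : ℕ) (ε : ℝ), 0 < ε → ∃ (M : ℤ × ℤ → ℝ) (C : ℝ),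
      (∀ t : ℤ × ℤ, t.1 ≠ 0 → t.2 ≠ 0 → t.1 ≠ t.2 →
        ∀ (d₀ : ℤ) (s : ℕ) (d : Fin s → ℤ), d₀ ≠ 0 → (∀ i, d i ≠ 0) →
        ∀ (F : Type) [Field F] [NumberField F], Gen F d →
          BddAbove {q | HasDiv (E (d₀ * t.1) (d₀ * t.2) F) q} ∧
          ((2 : ℝ) ^ (rk (E (d₀ * t.1) (d₀ * t.2) F) + crk (E (d₀ * t.1) (d₀ * t.2) F))) ^ k ≤
            (M t * ((d₀ * ∏ i, d i).natAbs : ℝ) ^ ε) ^ (2 ^ s)) ∧
      ∀ (N₁ N₂ : ℤ) (X : ℕ), 1 ≤ X → |N₁| ≤ (X : ℤ) ^ L → |N₂| ≤ (X : ℤ) ^ L →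
        ∑ t ∈ Sq N₁ N₂ X \ Z N₁ N₂ X, M t ≤ C * (Sq N₁ N₂ X).card) ∧
    ∀ η ε : ℝ, 0 < η → 0 < ε → ∃ (C : ℝ) (X₀ : ℕ), ∀ X, X₀ ≤ X → ∀ N₁ N₂ : ℤ,
      |N₁| ≤ (X : ℤ) ^ L → |N₂| ≤ (X : ℤ) ^ L → ∃ T ⊆ Sq N₁ N₂ X,
        (T.card : ℝ) ≤ η * (Sq N₁ N₂ X).card ∧ ∀ t ∈ Sq N₁ N₂ X \ T,
        ∀ (d₀ : ℤ) (s : ℕ) (d : Fin s → ℤ), d₀ ≠ 0 → (∀ i, d i ≠ 0) →
        ∀ (F : Type) [Field F] [NumberField F], Gen F d →
          ((rk (E (d₀ * t.1) (d₀ * t.2) F) + crk (E (d₀ * t.1) (d₀ * t.2) F) : ℕ) : ℝ) ≤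
            2 ^ s * (ε * Real.log (d₀ * ∏ i, d i).natAbs + C) := by
  classical
  have hN : ∀ (N : ℤ) (X : ℕ), |N| ≤ (X : ℤ) ^ L → N.natAbs ≤ X ^ L := by
    intro N X hN
    have : ((N.natAbs : ℕ) : ℤ) ≤ ((X ^ L : ℕ) : ℤ) := by
      rw [Int.natCast_natAbs]
      push_cast
      exact hN
    exact_mod_cast this
  obtain ⟨Z, hZ1, hZ2, hZ3⟩ := Pool.Agent.TH342.TU.diag L
  have hZ1' : ∀ N₁ N₂ X, Z N₁ N₂ X ⊆ Sq N₁ N₂ X := hZ1
  have hZ2' : ∀ η : ℝ, 0 < η → ∃ X₀ : ℕ, ∀ X, X₀ ≤ X → ∀ N₁ N₂ : ℤ, |N₁| ≤ (X : ℤ) ^ L →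
      |N₂| ≤ (X : ℤ) ^ L → ((Z N₁ N₂ X).card : ℝ) ≤ η * (Sq N₁ N₂ X).card := by
    intro η hη
    obtain ⟨X₀, h⟩ := hZ2 η hη
    exact ⟨X₀, fun X hX N₁ N₂ h1 h2 => h X hX N₁ N₂ (hN N₁ X h1) (hN N₂ X h2)⟩
  have hbdd : ∀ t : ℤ × ℤ, t.1 ≠ 0 → t.2 ≠ 0 → t.1 ≠ t.2 →
      ∀ (d₀ : ℤ) (s : ℕ) (d : Fin s → ℤ), d₀ ≠ 0 → (∀ i, d i ≠ 0) →
      ∀ (F : Type) [Field F] [NumberField F], Gen F d →
        BddAbove {q | HasDiv (E (d₀ * t.1) (d₀ * t.2) F) q} := by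
    intro t t1 t2 t3 d₀ s d hd₀ hd F _ _ hF
    apply Pool.Agent.TH841.NF.bdd_of (X := ((1 + Pool.Agent.TH342.TU.MP ((1 + 1) * 2)
      (t.1, t.2)) * ((d₀ * ∏ i, d i).natAbs : ℝ) ^ (1 : ℝ)) ^ (2 ^ s))
    intro q hq
    have h1 := Pool.Agent.TH342.TU.rho_MP (k := 1) (n := 2) (by norm_num) (ε := 1) one_pos
      (by norm_num) hd₀ t1 t2 t3 hd hF (q := q) hq
    rw [pow_one] at h1
    exact h1
  have key : ∀ (k : ℕ) (ε : ℝ), 0 < ε → ∃ (M : ℤ × ℤ → ℝ) (C : ℝ), 0 ≤ C ∧ (∀ t, 0 ≤ M t) ∧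
      (∀ t : ℤ × ℤ, t.1 ≠ 0 → t.2 ≠ 0 → t.1 ≠ t.2 →
        ∀ (d₀ : ℤ) (s : ℕ) (d : Fin s → ℤ), d₀ ≠ 0 → (∀ i, d i ≠ 0) →
        ∀ (F : Type) [Field F] [NumberField F], Gen F d →
          ((2 : ℝ) ^ (rk (E (d₀ * t.1) (d₀ * t.2) F) + crk (E (d₀ * t.1) (d₀ * t.2) F))) ^ k ≤
            (M t * ((d₀ * ∏ i, d i).natAbs : ℝ) ^ ε) ^ (2 ^ s)) ∧
      ∀ (N₁ N₂ : ℤ) (X : ℕ), 1 ≤ X → |N₁| ≤ (X : ℤ) ^ L → |N₂| ≤ (X : ℤ) ^ L →
        ∑ t ∈ Sq N₁ N₂ X \ Z N₁ N₂ X, M t ≤ C * (Sq N₁ N₂ X).card := by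
    intro k ε hε
    obtain ⟨n, hn⟩ := exists_nat_ge (2 / ε)
    have hn1 : 1 ≤ n := by
      rcases Nat.eq_zero_or_pos n with rfl | h
      · have : 0 < 2 / ε := by positivity
        rw [Nat.cast_zero] at hn
        linarith
      · exact h
    have hεn : 2 ≤ ε * n := by
      rw [div_le_iff₀ hε] at hn
      linarith
    obtain ⟨C, hC, h⟩ := hZ3 ((k + 1) * n) (Nat.mul_pos (Nat.succ_pos k) hn1)
    refine ⟨fun t => 1 + Pool.Agent.TH342.TU.MP ((k + 1) * n) t, 1 + C, by positivity,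
      fun t => by have := Pool.Agent.TH342.TU.MP_nonneg ((k + 1) * n) t; positivity, ?_, ?_⟩
    · intro t t1 t2 t3 d₀ s d hd₀ hd F _ _ hF
      exact Pool.Agent.TH342.TU.rho_MP hn1 hε hεn hd₀ t1 t2 t3 hd hF
        (Pool.Agent.TH841.NF.crk_mem (hbdd t t1 t2 t3 d₀ s d hd₀ hd F hF))
    · intro N₁ N₂ X hX h1 h2
      have h3 := h N₁ N₂ X hX (hN N₁ X h1) (hN N₂ X h2)
      have h4 : Sq N₁ N₂ X \ Z N₁ N₂ X = (Pool.Agent.TH342.SQ.Sq N₁ N₂ X).filter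
          (fun t => t ∉ Z N₁ N₂ X) := sdiff_eq_filter _ _
      have h5 : ((Sq N₁ N₂ X \ Z N₁ N₂ X).card : ℝ) ≤ (Sq N₁ N₂ X).card := by
        exact_mod_cast card_le_card sdiff_subset
      have h6 : ∑ t ∈ Sq N₁ N₂ X \ Z N₁ N₂ X, Pool.Agent.TH342.TU.MP ((k + 1) * n) t ≤
          C * (Sq N₁ N₂ X).card := by
        rw [h4]
        exact h3
      rw [sum_add_distrib, sum_const, nsmul_eq_mul, mul_one]
      linarith
  refine ⟨Z, hZ1', hZ2', ?_, ?_⟩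
  · intro k ε hε
    obtain ⟨M, C, -, -, h1, h2⟩ := key k ε hε
    exact ⟨M, C, fun t t1 t2 t3 d₀ s d hd₀ hd F _ _ hF =>
      ⟨hbdd t t1 t2 t3 d₀ s d hd₀ hd F hF, h1 t t1 t2 t3 d₀ s d hd₀ hd F hF⟩, h2⟩
  · intro η ε hη hε
    obtain ⟨M, C, hC, hM, h1, h2⟩ := key 1 (ε * Real.log 2) (by
      have := Real.log_pos one_lt_two
      positivity)
    obtain ⟨X₀, hX₀⟩ := hZ2' (η / 2) (by positivity)
    set R : ℝ := 2 * (C + 1) / η with hR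
    have hR0 : 0 < R := by positivity
    refine ⟨Real.log R / Real.log 2, X₀ + 1, fun X hX N₁ N₂ hN₁ hN₂ => ?_⟩
    set A := (Sq N₁ N₂ X \ Z N₁ N₂ X).filter (fun t => R < M t) with hA
    refine ⟨Z N₁ N₂ X ∪ A, union_subset (hZ1' _ _ _) ((filter_subset _ _).trans sdiff_subset),
      ?_, ?_⟩
    · have e1 := hX₀ X (by omega) N₁ N₂ hN₁ hN₂
      have e2 := h2 N₁ N₂ X (by omega) hN₁ hN₂
      have e3 : (A.card : ℝ) * R ≤ ∑ t ∈ Sq N₁ N₂ X \ Z N₁ N₂ X, M t := by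
        rw [← nsmul_eq_mul]
        refine (card_nsmul_le_sum A M R fun t ht => (mem_filter.1 ht).2.le).trans ?_
        exact sum_le_sum_of_subset_of_nonneg (filter_subset _ _) fun t _ _ => hM t
      have e4 : ((Z N₁ N₂ X ∪ A).card : ℝ) ≤ (Z N₁ N₂ X).card + A.card := by
        exact_mod_cast card_union_le _ _
      have hc : (0 : ℝ) ≤ (Sq N₁ N₂ X).card := Nat.cast_nonneg _
      have e5 : (A.card : ℝ) ≤ η / 2 * (Sq N₁ N₂ X).card := by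
        have e6 : (A.card : ℝ) * R ≤ η / 2 * (Sq N₁ N₂ X).card * R := by
          refine (e3.trans e2).trans ?_
          have : η / 2 * (Sq N₁ N₂ X).card * R = (C + 1) * (Sq N₁ N₂ X).card := by
            rw [hR]
            field_simp
          rw [this]
          nlinarith
        exact le_of_mul_le_mul_right e6 hR0
      linarith
    · intro t ht d₀ s d hd₀ hd F _ _ hF
      rw [mem_sdiff, mem_union, not_or] at ht
      obtain ⟨ht1, ht2, ht3⟩ := ht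
      obtain ⟨_, t1, t2, t3⟩ := mem_filter.1 ht1
      have hMR : M t ≤ R := by
        by_contra h
        push Not at h
        exact ht3 (mem_filter.2 ⟨mem_sdiff.2 ⟨ht1, ht2⟩, h⟩)
      have h3 := h1 t t1 t2 t3 d₀ s d hd₀ hd F hF
      rw [pow_one] at h3
      have hD0 : d₀ * ∏ i, d i ≠ 0 := mul_ne_zero hd₀ (prod_ne_zero_iff.2 fun i _ => hd i)
      have hDn : (0 : ℝ) < ((d₀ * ∏ i, d i).natAbs : ℝ) := by
        exact_mod_cast Int.natAbs_pos.2 hD0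
      have h4 : (2 : ℝ) ^ (rk (E (d₀ * t.1) (d₀ * t.2) F) + crk (E (d₀ * t.1) (d₀ * t.2) F)) ≤
          (R * ((d₀ * ∏ i, d i).natAbs : ℝ) ^ (ε * Real.log 2)) ^ (2 ^ s) :=
        h3.trans (pow_le_pow_left₀ (mul_nonneg (hM t) (by positivity))
          (mul_le_mul_of_nonneg_right hMR (by positivity)) _)
      have h5 := Real.log_le_log (by positivity) h4
      rw [Real.log_pow, Real.log_pow, Real.log_mul hR0.ne' (by positivity),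
        Real.log_rpow hDn] at h5
      have hl2 := Real.log_pos one_lt_two
      have h6 : ((rk (E (d₀ * t.1) (d₀ * t.2) F) + crk (E (d₀ * t.1) (d₀ * t.2) F) : ℕ) : ℝ) ≤
          (((2 ^ s : ℕ) : ℝ) * (Real.log R + ε * Real.log 2 *
            Real.log (d₀ * ∏ i, d i).natAbs)) / Real.log 2 := by
        rw [le_div_iff₀ hl2]
        exact h5
      refine h6.trans (le_of_eq ?_)
      push_cast
      field_simp
      ring

end Pool.Agent.Results.MP_7cad78_nt.AllMultiquadraticFields
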