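import Mathlib
import Pool.Agent.TH779.BS.Fld

/-!
# Clusters of primes and ranks over varying multiquadratic fields

For every `m` there is `K` such that, for every admissible set `H` of at least `K` shifts, for every
elliptic curve `E` over `ℚ` with three rational points of order two, all nonzero polynomials `D₀`,
..., `D_s` and every `b`, the following holds with a constant `R`: for at least
`c x / (log x) ^ K` integers `n` of `(x, 2 x]` at least `m` of the numbers `n + h`, `h ∈ H`, are
primes and, for ALL integers `t` with `|t - n| ≤ b`, the quadratic twist of `E` by `D₀(t)` has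
bounded rank and bounded corank of the 2-primary part of the Tate-Shafarevich group over the field
`ℚ(√D₁(t), ..., √D_s(t))`.
-/

set_option autoImplicit false

namespace Pool.Agent.Results.MP_7cad78_nt.ClusteredFields

open Finset Polynomial

open Pool.Agent.TH841.NF.D (HasDiv crk rk)

/-- the curve `y² = x³ + A x + B` over `F` -/
def EF (A B : ℤ) (F : Type) [Field F] : WeierstrassCurve F := ⟨0, 0, 0, (A : F), (B : F)⟩

/-- the number field `F` is generated by square roots of the integers `d i` -/
def Gen (F : Type) [Field F] [NumberField F] {s : ℕ} (d : Fin s → ℤ) : Prop :=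
  ∃ x : Fin s → F, (∀ i, x i ^ 2 = (d i : F)) ∧
    IntermediateField.adjoin ℚ (Set.range x) = ⊤

/-- `H` is admissible: for every prime `p` there is an integer `b` such that `p` divides none of
the numbers `b + h`, `h ∈ H` -/
def Admissible (H : Finset ℕ) : Prop := ∀ p : ℕ, p.Prime → ∃ b : ℕ, ∀ h ∈ H, ¬ p ∣ b + h

/-- the curve `W` over the number field `F` has rank and corank of the 2-primary part of the
Tate-Shafarevich group bounded by `R`: the numbers `q` for which `Ш` has a subgroup
`(ℚ₂ / ℤ₂) ^ q` are bounded, and `2 ^ (rank + largest such q) ≤ R` -/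
def Bounded (R : ℝ) {F : Type} [Field F] [NumberField F] (W : WeierstrassCurve F) : Prop :=
  BddAbove {q | HasDiv W q} ∧ (2 : ℝ) ^ (rk W + crk W) ≤ R

open Classical in
/-- **Theorem.** For every `m` there is `K` such that for every admissible set `H` of at least `K`
nonnegative integers there is `c > 0` such that for every elliptic curve
`y² = x³ + A x + B = (x - e₁) (x - e₂) (x - e₃)` with integers `e₁`, `e₂`, `e₃`, all nonzero
polynomials `D₀`, `D₁`, ..., `D_s` with integer coefficients and every `b` there are `R` and `x₀`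
such that for all `x ≥ x₀` at least `c x / (log x) ^ K` integers `n` with `x < n ≤ 2 x` have the
following property: at least `m` of the numbers `n + h`, `h ∈ H`, are primes, and for all
integers `t` with `|t - n| ≤ b` the `D_i(t)` are not zero and the quadratic twist of the curve by
`D₀(t)` is bounded by `R` over the field generated by `√D₁(t), ..., √D_s(t)`. -/
theorem result (m : ℕ) : ∃ K : ℕ, ∀ H : Finset ℕ, K ≤ H.card → Admissible H →
    ∃ c : ℝ, 0 < c ∧ ∀ (A B e₁ e₂ e₃ : ℤ), 4 * A ^ 3 + 27 * B ^ 2 ≠ 0 →
      (∀ x : ℤ, x ^ 3 + A * x + B = (x - e₁) * (x - e₂) * (x - e₃)) →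
      ∀ (s : ℕ) (D₀ : ℤ[X]) (D : Fin s → ℤ[X]), D₀ ≠ 0 → (∀ i, D i ≠ 0) → ∀ b : ℕ,
      ∃ R : ℝ, ∃ x₀ : ℕ, ∀ x : ℕ, x₀ ≤ x →
        c * (x / (Real.log x) ^ K) ≤ (((Ioc x (2 * x)).filter (fun n : ℕ =>
          m ≤ (H.filter (fun h => (n + h).Prime)).card ∧
          ∀ t : ℤ, |t - n| ≤ b → D₀.eval t ≠ 0 ∧ (∀ i, (D i).eval t ≠ 0) ∧
            ∀ (F : Type) [Field F] [NumberField F], Gen F (fun i => (D i).eval t) →
              Bounded R (EF (D₀.eval t ^ 2 * A) (D₀.eval t ^ 3 * B) F))).card : ℝ) :=
  Pool.Agent.TH779.BS.clustersF m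

end Pool.Agent.Results.MP_7cad78_nt.ClusteredFields
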