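import Pool.Agent.TH498.CO.Lim
import Pool.Agent.TH841.NF.FamN
import Pool.Agent.W307.RG.MqTw
import Pool.Agent.TH639.SL.Twist

/-!
# Ranks over all the multiquadratic number fields of the elliptic curves with full rational
2-torsion ordered by the conductor

All the elliptic curves over `ℚ` with full rational 2-torsion (any reduction, all quadratic
twists), ordered by the conductor `N_E ≤ N`, with `|Disc| ≤ N ^ K` for an arbitrary constant `K`.
There is one set `Z` of curves, of density zero in all these families, such that for all the twists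
by `d₀` over all the multiquadratic fields `F = ℚ(√d₁, …, √d_s)`, with
`ρ = rank over F + corank of the 2-primary part of Ш over F`, all the moments of `2 ^ ρ` over the
curves outside `Z` are bounded, uniformly in `d₀` and `F`, and the upper density of `ρ ≥ r`
decreases faster than any exponential.
-/

set_option autoImplicit false

namespace Pool.Agent.Results.MP_7cad78_nt.ConductorTailsUniform

open Filter Finset

open Pool.Agent.TH841.NF.D (HasDiv crk rk)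

/-- the discriminant `4a³ - 27b²` of the cubic of the model `y² = x³ - a x - b` -/
def Disc (a b : ℤ) : ℤ := 4 * a ^ 3 - 27 * b ^ 2

/-- the model `y² = x³ - a x - b` is an elliptic curve and it is minimal: `|Disc|` is
smallest among the integral models `y² = x³ - a' x - b'`, `a' = u⁴ a`, `b' = u⁶ b`, `u ∈ ℚ^×` -/
def IsMinimal (a b : ℤ) : Prop :=
  Disc a b ≠ 0 ∧ ∀ (u : ℚ) (a' b' : ℤ), u ≠ 0 → (a' : ℚ) = u ^ 4 * a → (b' : ℚ) = u ^ 6 * b →
    |Disc a b| ≤ |Disc a' b'|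

/-- all 2-torsion points are rational: `x³ - a x - b` splits over `ℚ` -/
def FullTwoTorsion (a b : ℤ) : Prop :=
  ∃ r₁ r₂ r₃ : ℚ, ∀ x : ℚ, x ^ 3 - a * x - b = (x - r₁) * (x - r₂) * (x - r₃)

/-- the prime-to-6 part of the conductor of a minimal model: the product over the primes `p ≥ 5`
dividing `Disc` of `p` (multiplicative reduction: `p ∤ a`) or `p²` (additive reduction: `p ∣ a`) -/
def Cond6 (a b : ℤ) : ℕ :=
  ∏ p ∈ (Disc a b).natAbs.primeFactors.filter (fun p => 5 ≤ p), if (p : ℤ) ∣ a then p ^ 2 else p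

/-- the quadratic twist by `d` of the curve `y² = x³ - a x - b`, `q = (a, b)`, over `F`:
`y² = x³ - d² a x - d³ b` -/
def Tw (d : ℤ) (q : ℤ × ℤ) (F : Type) [Field F] : WeierstrassCurve F :=
  ⟨0, 0, 0, ((d ^ 2 * (-q.1) : ℤ) : F), ((d ^ 3 * (-q.2) : ℤ) : F)⟩

/-- the number field `F` is generated by square roots of the integers `d i` -/
def Gen (F : Type) [Field F] [NumberField F] {s : ℕ} (d : Fin s → ℤ) : Prop :=
  ∃ x : Fin s → F, (∀ i, x i ^ 2 = (d i : F)) ∧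
    IntermediateField.adjoin ℚ (Set.range x) = ⊤

/-- the family: minimal models with full rational 2-torsion, `c ≤ N` and `|Disc| ≤ N ^ K` -/
def Fam (c : ℤ → ℤ → ℝ) (K N : ℝ) : Set (ℤ × ℤ) :=
  {q | IsMinimal q.1 q.2 ∧ FullTwoTorsion q.1 q.2 ∧ c q.1 q.2 ≤ N ∧
    |((Disc q.1 q.2 : ℤ) : ℝ)| ≤ N ^ K}

/-- the proportion in the family of the curves that belong to the set `T` -/
noncomputable def proportion (c : ℤ → ℤ → ℝ) (K : ℝ) (T : Set (ℤ × ℤ)) (N : ℝ) : ℝ :=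
  ((Fam c K N ∩ T).ncard : ℝ) / ((Fam c K N).ncard : ℝ)

/-- `rank + corank Ш[2 ^ ∞]` over `F` of the twist by `d` of the curve `q` -/
noncomputable def rho (d : ℤ) (F : Type) [Field F] [NumberField F] (q : ℤ × ℤ) : ℕ :=
  rk (Tw d q F) + crk (Tw d q F)

open Classical in
lemma proportion_eq {c : ℤ → ℤ → ℝ} {K N : ℝ} {S : Finset (ℤ × ℤ)}
    (hS : (S : Set (ℤ × ℤ)) = Fam c K N) (T : Set (ℤ × ℤ)) :
    proportion c K T N = ((S.filter fun q => q ∈ T).card : ℝ) / S.card := by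
  unfold proportion
  have h1 : Fam c K N ∩ T = ((S.filter fun q => q ∈ T : Finset (ℤ × ℤ)) : Set (ℤ × ℤ)) := by
    rw [← hS]
    ext q
    simp
  rw [h1, Set.ncard_coe_finset, ← hS, Set.ncard_coe_finset]

lemma proportion_nonneg (c : ℤ → ℤ → ℝ) (K : ℝ) (T : Set (ℤ × ℤ)) (N : ℝ) :
    0 ≤ proportion c K T N := by
  unfold proportion
  positivity

/-- `limsup` is at most `x` if the proportion is eventually at most `x + ε` -/
lemma limsup_le {c : ℤ → ℤ → ℝ} {K : ℝ} {T : Set (ℤ × ℤ)} {x : ℝ}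
    (h : ∀ ε : ℝ, 0 < ε → ∀ᶠ N in atTop, proportion c K T N ≤ x + ε) :
    limsup (proportion c K T) atTop ≤ x := by
  refine le_of_forall_pos_le_add fun ε hε => ?_
  refine limsup_le_of_le ?_ (h ε hε)
  refine IsBoundedUnder.isCoboundedUnder_le ?_
  exact isBoundedUnder_of ⟨0, fun N => proportion_nonneg c K T N⟩

lemma limsup_nonneg {c : ℤ → ℤ → ℝ} {K : ℝ} {T : Set (ℤ × ℤ)} {x : ℝ}
    (h : ∀ᶠ N in atTop, proportion c K T N ≤ x) : 0 ≤ limsup (proportion c K T) atTop := by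
  refine le_limsup_of_frequently_le (Eventually.frequently
    (Eventually.of_forall fun N => proportion_nonneg c K T N)) ?_
  exact ⟨x, h⟩

/-- the inequality of the means -/
lemma prod_rpow_le {ι : Type} [Fintype ι] [Nonempty ι] (x : ι → ℝ) (hx : ∀ i, 0 ≤ x i) (θ : ℝ) :
    (∏ i, x i) ^ (θ / Fintype.card ι) ≤ ∑ i, ((1 : ℝ) / Fintype.card ι) * x i ^ θ := by
  have hn : (0 : ℝ) < Fintype.card ι := by exact_mod_cast Fintype.card_pos
  have h1 := Real.geom_mean_le_arith_mean_weighted univ (fun _ => (1 : ℝ) / Fintype.card ι)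
    (fun i => x i ^ θ) (fun i _ => by positivity) (by
      rw [sum_const, card_univ, nsmul_eq_mul, mul_one_div_cancel hn.ne'])
    (fun i _ => Real.rpow_nonneg (hx i) _)
  refine le_trans (le_of_eq ?_) h1
  have h2 : ∀ i : ι, (x i ^ θ) ^ ((1 : ℝ) / Fintype.card ι) = x i ^ (θ / Fintype.card ι) := by
    intro i
    rw [← Real.rpow_mul (hx i)]
    congr 1
    ring
  rw [prod_congr rfl fun i _ => h2 i, Real.finsetProd_rpow _ _ (fun i _ => hx i)]

open Classical in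
/-- from the moments to the tails -/
lemma tails {c : ℤ → ℤ → ℝ} {K N1 : ℝ} {Z : Set (ℤ × ℤ)} (ρ : ℤ × ℤ → ℕ)
    (hfin : ∀ N : ℝ, N1 ≤ N → ∃ S : Finset (ℤ × ℤ), (S : Set (ℤ × ℤ)) = Fam c K N)
    (hdens : ∀ ε : ℝ, 0 < ε → ∃ N0 : ℝ, ∀ N : ℝ, N0 ≤ N → ∀ S : Finset (ℤ × ℤ),
      (S : Set (ℤ × ℤ)) = Fam c K N → ((S.filter fun q => q ∈ Z).card : ℝ) ≤ ε * S.card)
    (hmom : ∀ θ : ℝ, 0 < θ → ∃ C N0 : ℝ, 0 < C ∧ ∀ N : ℝ, N0 ≤ N → ∀ S : Finset (ℤ × ℤ),
      (S : Set (ℤ × ℤ)) = Fam c K N →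
      ∑ q ∈ S.filter (fun q => q ∉ Z), ((2 : ℝ) ^ ρ q) ^ θ ≤ C * S.card) (A : ℝ) :
    Tendsto (fun r : ℕ => A ^ r * limsup (proportion c K {q | r ≤ ρ q}) atTop) atTop
      (nhds 0) := by
  obtain ⟨B, hB⟩ : ∃ B : ℝ, B = 2 * (|A| + 1) := ⟨_, rfl⟩
  have hB2 : 2 ≤ B := by rw [hB]; linarith [abs_nonneg A]
  have hB0 : 0 < B := by linarith
  obtain ⟨θ, hθ⟩ : ∃ θ : ℝ, θ = Real.logb 2 B := ⟨_, rfl⟩
  have hθ1 : (2 : ℝ) ^ θ = B := by rw [hθ]; exact Real.rpow_logb (by norm_num) (by norm_num) hB0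
  have hθ0 : 0 < θ := by rw [hθ]; exact Real.logb_pos (by norm_num) (by linarith)
  obtain ⟨C, N2, hC, h⟩ := hmom θ hθ0
  have htail : ∀ (r : ℕ) (ε : ℝ), 0 < ε → ∀ᶠ N in atTop,
      proportion c K {q | r ≤ ρ q} N ≤ C / B ^ r + ε := by
    intro r ε hε
    obtain ⟨N0, hd⟩ := hdens ε hε
    refine eventually_atTop.2 ⟨max N1 (max N2 N0), fun N hN => ?_⟩
    have g1 : N1 ≤ N := (le_max_left _ _).trans hN
    have g2 : N2 ≤ N := (le_max_left _ _).trans ((le_max_right _ _).trans hN)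
    have g0 : N0 ≤ N := (le_max_right _ _).trans ((le_max_right _ _).trans hN)
    obtain ⟨S, hS⟩ := hfin N g1
    obtain ⟨T, hT⟩ : ∃ T : Set (ℤ × ℤ), T = {q | r ≤ ρ q} := ⟨_, rfl⟩
    rw [← hT, proportion_eq hS]
    have hBr : 0 < B ^ r := by positivity
    have h1 : ((S.filter fun q => q ∈ T).card : ℝ) ≤
        ((S.filter fun q => q ∈ Z).card : ℝ) +
        ((S.filter fun q => q ∉ Z ∧ q ∈ T).card : ℝ) := by
      have h2 : (S.filter fun q => q ∈ T) ⊆ (S.filter fun q => q ∈ Z) ∪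
          (S.filter fun q => q ∉ Z ∧ q ∈ T) := by
        intro q hq
        rw [mem_union, mem_filter, mem_filter]
        obtain ⟨h3, h4⟩ := mem_filter.1 hq
        by_cases hz : q ∈ Z
        · exact Or.inl ⟨h3, hz⟩
        · exact Or.inr ⟨h3, hz, h4⟩
      exact_mod_cast (card_le_card h2).trans (card_union_le _ _)
    have h2 : ((S.filter fun q => q ∉ Z ∧ q ∈ T).card : ℝ) * B ^ r ≤ C * S.card := by
      refine le_trans ?_ (h N g2 S hS)
      have h3 : (S.filter fun q => q ∉ Z ∧ q ∈ T) ⊆ S.filter fun q => q ∉ Z := by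
        intro q hq
        obtain ⟨h3, h4, h5⟩ := mem_filter.1 hq
        exact mem_filter.2 ⟨h3, h4⟩
      refine le_trans ?_ (sum_le_sum_of_subset_of_nonneg h3 fun q hq _ => by positivity)
      rw [← nsmul_eq_mul]
      refine card_nsmul_le_sum _ _ _ fun q hq => ?_
      obtain ⟨h5, h6, h7⟩ := mem_filter.1 hq
      have h8 : r ≤ ρ q := by
        rw [hT] at h7
        exact h7
      calc B ^ r = ((2 : ℝ) ^ r) ^ θ := by
            rw [← hθ1, ← Real.rpow_natCast, ← Real.rpow_natCast, ← Real.rpow_mul (by norm_num),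
              ← Real.rpow_mul (by norm_num), mul_comm]
        _ ≤ ((2 : ℝ) ^ ρ q) ^ θ := by
            refine Real.rpow_le_rpow (by positivity) ?_ hθ0.le
            exact pow_le_pow_right₀ (by norm_num) h8
    have h3 := hd N g0 S hS
    refine div_le_of_le_mul₀ (Nat.cast_nonneg _) (by positivity) ?_
    have h4 : ((S.filter fun q => q ∉ Z ∧ q ∈ T).card : ℝ) ≤ C / B ^ r * S.card := by
      rw [div_mul_eq_mul_div, le_div_iff₀ hBr]
      exact h2
    calc _ ≤ _ := h1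
      _ ≤ ε * S.card + C / B ^ r * S.card := add_le_add h3 h4
      _ = _ := by ring
  have hup : ∀ r : ℕ, limsup (proportion c K {q | r ≤ ρ q}) atTop ≤ C / B ^ r :=
    fun r => limsup_le (htail r)
  have hlo : ∀ r : ℕ, 0 ≤ limsup (proportion c K {q | r ≤ ρ q}) atTop :=
    fun r => limsup_nonneg (htail r 1 one_pos)
  have hz : Tendsto (fun r : ℕ => C * (1 / 2 : ℝ) ^ r) atTop (nhds 0) := by
    have := (tendsto_pow_atTop_nhds_zero_of_lt_one (show (0 : ℝ) ≤ 1 / 2 by norm_num)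
      (by norm_num)).const_mul C
    rwa [mul_zero] at this
  refine squeeze_zero_norm (fun r => ?_) hz
  rw [Real.norm_eq_abs, abs_mul, abs_pow, abs_of_nonneg (hlo r)]
  have hA : |A| ≤ B / 2 := by rw [hB]; linarith
  calc |A| ^ r * limsup (proportion c K {q | r ≤ ρ q}) atTop
      ≤ (B / 2) ^ r * (C / B ^ r) :=
        mul_le_mul (pow_le_pow_left₀ (abs_nonneg A) hA r) (hup r) (hlo r) (by positivity)
    _ = C * (1 / 2) ^ r := by
        rw [div_pow, div_pow, one_pow]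
        have : B ^ r ≠ 0 := by positivity
        field_simp

/-- **Theorem.** There is a set `Z` of curves such that for every real `K ≥ 2` and every function
`c` of the minimal models with full rational 2-torsion that differs from the prime-to-6 part `N₆`
of the conductor by a factor between `1` and `2 ^ 8 * 3 ^ 5` (for instance `c` = the conductor):
1. for `N ≥ 4 * 10 ^ 7` the family `Fam c K N` is finite and its number is between
`N ^ (2/3) / 10 ^ 6` and `C N ^ (2/3)`, with `C` independent of `N`;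
2. the proportion in the family of the curves of `Z` tends to `0` as `N → ∞`;
3. for all real `θ > 0` and `A ≥ 0` there is `C` such that for all `N ≥ 4 * 10 ^ 7`, all nonzero
integers `d₀`, …, `d_s` with `|d₀ ⋯ d_s| ≤ N ^ A` and all `F = ℚ(√d₁, …, √d_s)`, the sum of
`2 ^ (θ ρ / 2 ^ s)`, `ρ = rank + corank Ш[2 ^ ∞]` over `F` of the twist by `d₀`, over the curves of
the family outside `Z` is at most `C (16 * 512 ^ θ) ^ ω(d₀ ⋯ d_s)` times the number of all the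
curves of the family;
4. for all nonzero integers `d₀`, …, `d_s` and all `F = ℚ(√d₁, …, √d_s)`, the corank of
`Ш[2 ^ ∞]` over `F` of the twist by `d₀` is finite for all the curves, and for every real `A` the
upper density of the curves with `ρ ≥ r`, times `A ^ r`, tends to `0` as `r → ∞`. -/
theorem result : ∃ Z : Set (ℤ × ℤ), ∀ K : ℝ, 2 ≤ K → ∀ c : ℤ → ℤ → ℝ,
    (∀ a b : ℤ, IsMinimal a b → FullTwoTorsion a b →
      (Cond6 a b : ℝ) ≤ c a b ∧ c a b ≤ 2 ^ 8 * 3 ^ 5 * (Cond6 a b : ℝ)) →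
    (∃ C : ℝ, ∀ N : ℝ, 4 * 10 ^ 7 ≤ N → (Fam c K N).Finite ∧
      N ^ ((2 : ℝ) / 3) / 10 ^ 6 ≤ ((Fam c K N).ncard : ℝ) ∧
      ((Fam c K N).ncard : ℝ) ≤ C * N ^ ((2 : ℝ) / 3)) ∧
    Tendsto (proportion c K Z) atTop (nhds 0) ∧
    (∀ θ A : ℝ, 0 < θ → 0 ≤ A → ∃ C : ℝ, ∀ N : ℝ, 4 * 10 ^ 7 ≤ N →
      ∀ (d₀ : ℤ) (s : ℕ) (d : Fin s → ℤ), d₀ ≠ 0 → (∀ i, d i ≠ 0) →
      ((d₀ * ∏ i, d i).natAbs : ℝ) ≤ N ^ A →
      ∀ (F : Type) [Field F] [NumberField F], Gen F d →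
      ∀ S : Finset (ℤ × ℤ), (S : Set (ℤ × ℤ)) = Fam c K N \ Z →
      ∑ q ∈ S, ((2 : ℝ) ^ rho d₀ F q) ^ (θ / 2 ^ s) ≤
        C * (16 * 512 ^ θ) ^ (d₀ * ∏ i, d i).natAbs.primeFactors.card *
          ((Fam c K N).ncard : ℝ)) ∧
    ∀ (d₀ : ℤ) (s : ℕ) (d : Fin s → ℤ), d₀ ≠ 0 → (∀ i, d i ≠ 0) →
      ∀ (F : Type) [Field F] [NumberField F], Gen F d →
      (∀ q : ℤ × ℤ, IsMinimal q.1 q.2 → FullTwoTorsion q.1 q.2 →
        BddAbove {m | HasDiv (Tw d₀ q F) m}) ∧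
      ∀ A : ℝ, Tendsto (fun r : ℕ => A ^ r *
        limsup (proportion c K {q | r ≤ rho d₀ F q}) atTop) atTop (nhds 0) := by
  classical
  obtain ⟨n, Z, hn, hdens, hmom⟩ := Pool.Agent.TH498.CO.lims
  refine ⟨Z, ?_⟩
  intro K hK c hc
  have hcl : Pool.Agent.TH498.CO.CL c := hc
  have hfin : ∀ N : ℝ, 4 * 10 ^ 7 ≤ N → ∃ S : Finset (ℤ × ℤ), (S : Set (ℤ × ℤ)) = Fam c K N :=
    fun N hN => ⟨(Pool.Agent.TH498.CO.fc_fin hcl hK hN).1.toFinset, Set.Finite.coe_toFinset _⟩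
  have hn1 : ∀ q : ℤ × ℤ, IsMinimal q.1 q.2 → FullTwoTorsion q.1 q.2 → ∀ d : ℤ, d ≠ 0 →
      1 ≤ n d q := fun q h1 h2 d hd =>
    Pool.Agent.TH498.CO.one_le_of_bd ((hn q h1 h2).1 d hd)
  have hdisc : ∀ q : ℤ × ℤ, IsMinimal q.1 q.2 → 4 * (-q.1) ^ 3 + 27 * (-q.2) ^ 2 ≠ 0 := by
    intro q hq h
    apply hq.1
    unfold Disc
    linarith
  -- one curve over one field
  have hone : ∀ (d₀ : ℤ) (s : ℕ) (d : Fin s → ℤ), d₀ ≠ 0 → (∀ i, d i ≠ 0) →
      ∀ (F : Type) [Field F] [NumberField F], Gen F d → ∀ q : ℤ × ℤ, IsMinimal q.1 q.2 →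
      FullTwoTorsion q.1 q.2 → ∀ m : ℕ, HasDiv (Tw d₀ q F) m →
      (2 : ℝ) ^ (rk (Tw d₀ q F) + m) ≤ ∏ T : Finset (Fin s), n (d₀ * ∏ i ∈ T, d i) q := by
    intro d₀ s d hd₀ hd F _ _ hF q h1 h2 m hm
    have hdT : ∀ T : Finset (Fin s), d₀ * ∏ i ∈ T, d i ≠ 0 := fun T =>
      mul_ne_zero hd₀ (prod_ne_zero_iff.2 fun i _ => hd i)
    obtain ⟨e1, e2, e3, he⟩ := (hn q h1 h2).2
    have g2 : ∀ T : Finset (Fin s), (∏ i ∈ T, d i) ^ 2 * (d₀ ^ 2 * (-q.1)) =
        (d₀ * ∏ i ∈ T, d i) ^ 2 * (-q.1) := fun T => by ring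
    have g3 : ∀ T : Finset (Fin s), (∏ i ∈ T, d i) ^ 3 * (d₀ ^ 3 * (-q.2)) =
        (d₀ * ∏ i ∈ T, d i) ^ 3 * (-q.2) := fun T => by ring
    refine Pool.Agent.TH841.NF.one_field hF hd
      (Pool.Agent.TH639.SL.disc_tw hd₀ (hdisc q h1)) _ ?_ ?_ hm
    · intro T
      rw [g2, g3]
      exact (hn q h1 h2).1 _ (hdT T)
    · intro T
      rw [g2, g3]
      exact Pool.Agent.W307.RG.fin_tw (hdisc q h1) he (hdT T)
  have hbdd : ∀ (d₀ : ℤ) (s : ℕ) (d : Fin s → ℤ), d₀ ≠ 0 → (∀ i, d i ≠ 0) →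
      ∀ (F : Type) [Field F] [NumberField F], Gen F d → ∀ q : ℤ × ℤ, IsMinimal q.1 q.2 →
      FullTwoTorsion q.1 q.2 → BddAbove {m | HasDiv (Tw d₀ q F) m} ∧
      (2 : ℝ) ^ rho d₀ F q ≤ ∏ T : Finset (Fin s), n (d₀ * ∏ i ∈ T, d i) q := by
    intro d₀ s d hd₀ hd F _ _ hF q h1 h2
    have h3 := Pool.Agent.TH841.NF.bdd_of (hone d₀ s d hd₀ hd F hF q h1 h2)
    exact ⟨h3, hone d₀ s d hd₀ hd F hF q h1 h2 _ (Pool.Agent.TH841.NF.crk_mem h3)⟩
  -- the moments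
  have hsum : ∀ θ A : ℝ, 0 < θ → 0 ≤ A → ∃ C : ℝ, 0 < C ∧ ∀ N : ℝ, 4 * 10 ^ 7 ≤ N →
      ∀ (d₀ : ℤ) (s : ℕ) (d : Fin s → ℤ), d₀ ≠ 0 → (∀ i, d i ≠ 0) →
      ((d₀ * ∏ i, d i).natAbs : ℝ) ≤ N ^ A →
      ∀ (F : Type) [Field F] [NumberField F], Gen F d →
      ∀ S : Finset (ℤ × ℤ), (S : Set (ℤ × ℤ)) = Fam c K N →
      ∑ q ∈ S.filter (fun q => q ∉ Z), ((2 : ℝ) ^ rho d₀ F q) ^ (θ / 2 ^ s) ≤
        C * (16 * 512 ^ θ) ^ (d₀ * ∏ i, d i).natAbs.primeFactors.card * S.card := by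
    intro θ A hθ hA
    obtain ⟨C, hC, h⟩ := hmom θ hθ K A hK hA
    refine ⟨C, by linarith, ?_⟩
    intro N hN d₀ s d hd₀ hd hdN F _ _ hF S hS
    have hB1 : (1 : ℝ) ≤ 16 * 512 ^ θ := by
      have : (1 : ℝ) ≤ 512 ^ θ := Real.one_le_rpow (by norm_num) hθ.le
      linarith
    have hmem : ∀ q ∈ S.filter (fun q => q ∉ Z), IsMinimal q.1 q.2 ∧ FullTwoTorsion q.1 q.2 := by
      intro q hq
      have h1 : q ∈ Fam c K N := by rw [← hS]; exact mem_coe.2 (mem_filter.1 hq).1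
      exact ⟨h1.1, h1.2.1⟩
    have hdT : ∀ T : Finset (Fin s), d₀ * ∏ i ∈ T, d i ≠ 0 := fun T =>
      mul_ne_zero hd₀ (prod_ne_zero_iff.2 fun i _ => hd i)
    have hcs : (Fintype.card (Finset (Fin s)) : ℝ) = 2 ^ s := by
      rw [Fintype.card_finset, Fintype.card_fin]
      push_cast
      rfl
    have hdvd : ∀ T : Finset (Fin s), (d₀ * ∏ i ∈ T, d i).natAbs ∣ (d₀ * ∏ i, d i).natAbs := by
      intro T
      rw [Int.natAbs_dvd_natAbs]
      exact mul_dvd_mul_left _ (prod_dvd_prod_of_subset _ _ _ (subset_univ T))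
    have h1 : ∀ q ∈ S.filter (fun q => q ∉ Z), ((2 : ℝ) ^ rho d₀ F q) ^ (θ / 2 ^ s) ≤
        ∑ T : Finset (Fin s), ((1 : ℝ) / 2 ^ s) * n (d₀ * ∏ i ∈ T, d i) q ^ θ := by
      intro q hq
      obtain ⟨m1, m2⟩ := hmem q hq
      have := prod_rpow_le (fun T : Finset (Fin s) => n (d₀ * ∏ i ∈ T, d i) q)
        (fun T => zero_le_one.trans (hn1 q m1 m2 _ (hdT T))) θ
      rw [hcs] at this
      exact (Real.rpow_le_rpow (by positivity) (hbdd d₀ s d hd₀ hd F hF q m1 m2).2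
        (by positivity)).trans this
    refine (sum_le_sum h1).trans ?_
    rw [sum_comm]
    have h2 : ∀ T : Finset (Fin s), ∑ q ∈ S.filter (fun q => q ∉ Z), ((1 : ℝ) / 2 ^ s) *
        n (d₀ * ∏ i ∈ T, d i) q ^ θ ≤ ((1 : ℝ) / 2 ^ s) *
        (C * (16 * 512 ^ θ) ^ (d₀ * ∏ i, d i).natAbs.primeFactors.card * S.card) := by
      intro T
      rw [← mul_sum]
      refine mul_le_mul_of_nonneg_left ?_ (by positivity)
      have h0 : (d₀ * ∏ i, d i).natAbs ≠ 0 := by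
        rw [Ne, Int.natAbs_eq_zero]
        exact hdT univ
      have h3 := h c hcl N hN S hS _ (hdT T) (le_trans (by
        exact_mod_cast Nat.le_of_dvd (Nat.pos_of_ne_zero h0) (hdvd T)) hdN)
      refine h3.trans ?_
      have h4 : (d₀ * ∏ i ∈ T, d i).natAbs.primeFactors.card ≤
          (d₀ * ∏ i, d i).natAbs.primeFactors.card :=
        card_le_card (Nat.primeFactors_mono (hdvd T) h0)
      have h5 : (16 * 512 ^ θ : ℝ) ^ (d₀ * ∏ i ∈ T, d i).natAbs.primeFactors.card ≤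
          (16 * 512 ^ θ) ^ (d₀ * ∏ i, d i).natAbs.primeFactors.card :=
        pow_le_pow_right₀ hB1 h4
      gcongr
    refine (sum_le_sum fun T _ => h2 T).trans (le_of_eq ?_)
    rw [sum_const, card_univ, nsmul_eq_mul, hcs, ← mul_assoc]
    rw [mul_one_div_cancel (by positivity), one_mul]
  refine ⟨?_, ?_, ?_, ?_⟩
  · obtain ⟨C, hC, hup⟩ := Pool.Agent.TH498.CO.fc_upper K hK
    refine ⟨C, fun N hN => ?_⟩
    obtain ⟨S, hS⟩ := hfin N hN
    refine ⟨(Pool.Agent.TH498.CO.fc_fin hcl hK hN).1, ?_, ?_⟩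
    · have := (Pool.Agent.TH498.CO.fc_fin hcl hK hN).2 S hS
      rwa [← hS, Set.ncard_coe_finset]
    · have := hup c hcl N hN S hS
      rwa [← hS, Set.ncard_coe_finset]
  · rw [Metric.tendsto_atTop]
    intro ε hε
    obtain ⟨N0, hN0, h⟩ := hdens K hK (ε / 2) (by positivity)
    refine ⟨N0, fun N hN => ?_⟩
    obtain ⟨S, hS⟩ := hfin N (hN0.trans hN)
    rw [Real.dist_eq, sub_zero, abs_of_nonneg (proportion_nonneg _ _ _ _), proportion_eq hS]
    have h1 := h c hcl N hN S hS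
    refine lt_of_le_of_lt (div_le_of_le_mul₀ (Nat.cast_nonneg _) (by positivity) h1) (by linarith)
  · intro θ A hθ hA
    obtain ⟨C, hC, h⟩ := hsum θ A hθ hA
    refine ⟨C, ?_⟩
    intro N hN d₀ s d hd₀ hd hdN F _ _ hF S' hS'
    obtain ⟨S, hS⟩ := hfin N hN
    have e : S' = S.filter fun q => q ∉ Z := by
      apply Finset.coe_injective
      rw [hS', ← hS]
      ext q
      simp
    rw [← hS, Set.ncard_coe_finset, e]
    exact h N hN d₀ s d hd₀ hd hdN F hF S hS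
  · intro d₀ s d hd₀ hd F _ _ hF
    refine ⟨fun q h1 h2 => (hbdd d₀ s d hd₀ hd F hF q h1 h2).1, ?_⟩
    refine tails (N1 := 4 * 10 ^ 7) (Z := Z) (rho d₀ F) hfin ?_ ?_
    · intro ε hε
      obtain ⟨N0, hN0, h⟩ := hdens K hK ε hε
      exact ⟨N0, fun N hN S hS => h c hcl N hN S hS⟩
    · intro θ hθ
      have hp : 0 < θ * 2 ^ s := by positivity
      obtain ⟨C, hC, h⟩ := hsum (θ * 2 ^ s) 1 hp zero_le_one
      refine ⟨C * (16 * 512 ^ (θ * 2 ^ s)) ^ (d₀ * ∏ i, d i).natAbs.primeFactors.card,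
        max (4 * 10 ^ 7) ((d₀ * ∏ i, d i).natAbs : ℝ), by positivity, ?_⟩
      intro N hN S hS
      have h1 := h N ((le_max_left _ _).trans hN) d₀ s d hd₀ hd (by
        rw [Real.rpow_one]
        exact (le_max_right _ _).trans hN) F hF S hS
      have e : θ * 2 ^ s / 2 ^ s = θ := by field_simp
      rw [e] at h1
      exact h1

end Pool.Agent.Results.MP_7cad78_nt.ConductorTailsUniform
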