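import Mathlib
import Pool.Agent.TH344.DT.Tw
import Pool.Agent.TH344.GT.Prod
import Pool.Agent.TH841.NF.FamN
import Pool.Agent.TH841.NF.Mom
import Pool.Agent.W307.RT.Tors

/-!
# The tails of the distribution of the ranks over multiquadratic number fields

Let `F = ℚ(√d₁, ..., √d_s)` be a multiquadratic number field. We consider all the elliptic curves
`E` over `ℚ` with full rational 2-torsion, ordered by height, over the field `F`. There is one set of
curves of density zero such that over all the other curves all the moments of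
`2 ^ (rank E(F) + corank Ш(E / F)[2^∞])` are bounded. So the upper density of the curves of rank at
least `r` over `F` decays faster than any exponential `A ^ (-r)`.

The group `Ш(E / F)` and its 2-corank are those of `Pool.Agent.TH841.NF.D`: classes of continuous
cocycles of the absolute Galois group of `F` that are trivial over all completions of `F`; the corank
is the largest `q` such that `Ш` contains `(ℚ₂ / ℤ₂) ^ q`.
-/

namespace Pool.Agent.Results.MP_7cad78_nt.MultiquadraticTails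

open Filter Topology

open Pool.Agent.TH841.NF.D (HasDiv crk rk)

/-- the curve `y² = x³ + A x + B` over `F` -/
def EF (A B : ℤ) (F : Type) [Field F] : WeierstrassCurve F := ⟨0, 0, 0, (A : F), (B : F)⟩

/-- the number field `F` is generated by square roots of the integers `d i` -/
def Gen (F : Type) [Field F] [NumberField F] {s : ℕ} (d : Fin s → ℤ) : Prop :=
  ∃ x : Fin s → F, (∀ i, x i ^ 2 = (d i : F)) ∧
    IntermediateField.adjoin ℚ (Set.range x) = ⊤

/-- The pairs `(A, B)` of integers such that `4 A³ + 27 B² ≠ 0`, there is no prime `p` with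
`p⁴ ∣ A` and `p⁶ ∣ B`, `Z/2 x Z/2` embeds in the group of the rational points of
`y² = x³ + A x + B`, and the height `max (4 |A|³) (27 B²)` is at most `H`. Every elliptic curve over
`ℚ` with full rational 2-torsion is isomorphic to `y² = x³ + A x + B` for exactly one pair with the
first three properties. -/
def Fam (H : ℕ) : Set (ℤ × ℤ) :=
  {c : ℤ × ℤ | 4 * c.1 ^ 3 + 27 * c.2 ^ 2 ≠ 0 ∧
    (∀ p : ℕ, p.Prime → ¬ ((p : ℤ) ^ 4 ∣ c.1 ∧ (p : ℤ) ^ 6 ∣ c.2)) ∧
    (∃ f : ZMod 2 × ZMod 2 →+ (EF c.1 c.2 ℚ).toAffine.Point, Function.Injective f) ∧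
    4 * |c.1| ^ 3 ≤ H ∧ 27 * c.2 ^ 2 ≤ H}

/-- the proportion of the curves of `S` among the curves of height at most `H` -/
noncomputable def proportion (S : Set (ℤ × ℤ)) (H : ℕ) : ℝ :=
  ((Fam H ∩ S).ncard : ℝ) / (Fam H).ncard

/-- the upper density of a set of curves -/
noncomputable def upperDensity (S : Set (ℤ × ℤ)) : ℝ := limsup (proportion S) atTop

lemma Fam_eq (H : ℕ) : Fam H = (Pool.Agent.W307.RT.Cv 2 H : Set (ℤ × ℤ)) := by
  classical
  ext c
  have h : Pool.Agent.W307.RT.HasT 2 (Pool.Agent.W307.RT.Sh c.1 c.2) ↔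
    ∃ f : ZMod 2 × ZMod 2 →+ (EF c.1 c.2 ℚ).toAffine.Point, Function.Injective f :=
    Pool.Agent.W307.RT.tors_iff
  unfold Fam Pool.Agent.W307.RT.Cv
  rw [Set.mem_ofPred_eq, Finset.mem_coe, Finset.mem_filter, h, Finset.mem_product, Finset.mem_Icc,
    Finset.mem_Icc]
  constructor
  · rintro ⟨h1, h2, h3, h4, h5⟩
    refine ⟨⟨?_, ?_⟩, h1, h4, h5, h2, h3⟩
    · rw [← abs_le]
      have h0 := abs_nonneg c.1
      rcases eq_or_lt_of_le h0 with h6 | h6
      · rw [← h6]; positivity
      · have : 1 ≤ |c.1| := h6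
        nlinarith [mul_nonneg h0 h0, mul_self_nonneg (|c.1| - 1)]
    · rw [← abs_le]
      have h0 := abs_nonneg c.2
      rw [← sq_abs] at h5
      rcases eq_or_lt_of_le h0 with h6 | h6
      · rw [← h6]; positivity
      · have : 1 ≤ |c.2| := h6
        nlinarith
  · rintro ⟨-, h1, h4, h5, h2, h3⟩
    exact ⟨h1, h2, h3, h4, h5⟩

lemma Fam_ncard (H : ℕ) : (Fam H).ncard = (Pool.Agent.W307.RT.Cv 2 H).card := by
  rw [Fam_eq, Set.ncard_coe_finset]

lemma proportion_eq (S : Set (ℤ × ℤ)) :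
    proportion S = Pool.Agent.TH344.GT.pr (Pool.Agent.W307.RT.Cv 2) S := by
  funext H
  unfold proportion Pool.Agent.TH344.GT.pr
  rw [Fam_eq, Set.ncard_coe_finset]

lemma upperDensity_eq (S : Set (ℤ × ℤ)) :
    upperDensity S = Pool.Agent.TH344.GT.ud (Pool.Agent.W307.RT.Cv 2) S := by
  unfold upperDensity Pool.Agent.TH344.GT.ud
  rw [proportion_eq]

/-- **Theorem.** Let `F` be a number field generated by square roots of nonzero integers. The number
of the elliptic curves `E` over `ℚ` with full rational 2-torsion and height at most `H` is finite and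
tends to infinity with `H`; the 2-coranks of `Ш(E / F)` are bounded for every `E`. There is a set `Z`
of curves of density zero such that for every `k` the sum of
`(2 ^ (rank E(F) + corank Ш(E / F)[2^∞])) ^ k` over the curves of height at most `H` outside of `Z` is
at most `C_k` times the number of the curves of height at most `H`. For every real number `A`, the
upper density of the curves with `rank E(F) + corank Ш(E / F)[2^∞] ≥ r` times `A ^ r` tends to zero
for `r → ∞`. -/
theorem result (F : Type) [Field F] [NumberField F] (s : ℕ) (d : Fin s → ℤ) (hd : ∀ i, d i ≠ 0)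
    (hF : Gen F d) :
    (∀ H : ℕ, (Fam H).Finite ∧ ∀ c ∈ Fam H, BddAbove {q | HasDiv (EF c.1 c.2 F) q}) ∧
    Tendsto (fun H : ℕ => (Fam H).ncard) atTop atTop ∧
    (∃ Z : Set (ℤ × ℤ), Tendsto (proportion Z) atTop (𝓝 0) ∧ ∀ k : ℕ, ∃ C : ℝ, ∀ H : ℕ,
      ∑ᶠ c ∈ Fam H \ Z, ((2 : ℝ) ^ (rk (EF c.1 c.2 F) + crk (EF c.1 c.2 F))) ^ k ≤
        C * (Fam H).ncard) ∧
    ∀ A : ℝ, Tendsto (fun r : ℕ => A ^ r * upperDensity
      {c | r ≤ rk (EF c.1 c.2 F) + crk (EF c.1 c.2 F)}) atTop (𝓝 0) := by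
  classical
  -- the products of the `d i`
  set D : Finset (Fin s) → ℤ := fun T => ∏ i ∈ T, d i with hD
  have hD0 : ∀ T, D T ≠ 0 := fun T => Finset.prod_ne_zero_iff.2 fun i _ => hd i
  set g : ℤ × ℤ → ℕ := fun c => ∏ T : Finset (Fin s),
    (Pool.Agent.W307.SE.SelR (D T ^ 2 * c.1) (D T ^ 3 * c.2)).ncard with hg
  have hexc : Pool.Agent.TH344.GT.EXC (Pool.Agent.W307.RT.Cv 2) g :=
    Pool.Agent.TH344.GT.EXC_prod _ fun T => Pool.Agent.TH344.DT.exc_tw (hD0 T)
  have key : ∀ H, ∀ c ∈ Pool.Agent.W307.RT.Cv 2 H,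
      BddAbove {q | HasDiv (EF c.1 c.2 F) q} ∧
      2 ^ (rk (EF c.1 c.2 F) + crk (EF c.1 c.2 F)) ≤ g c := by
    intro H c hc
    have hc' := hc
    unfold Pool.Agent.W307.RT.Cv at hc'
    obtain ⟨-, a1, -, -, -, a3⟩ := Finset.mem_filter.1 hc'
    obtain ⟨F0, -, hF0⟩ := Pool.Agent.W513.FK.parf
    obtain ⟨-, -, -, -, -, e1, e2, e3, he, -, -⟩ := hF0 c a1 a3
    have hq : ∀ q, HasDiv (EF c.1 c.2 F) q →
        (2 : ℝ) ^ (rk (EF c.1 c.2 F) + q) ≤ (g c : ℝ) := by
      intro q hq
      have h1 := Pool.Agent.TH841.NF.one_field (F := F) hF hd a1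
        (fun T => ((Pool.Agent.W307.SE.SelR (D T ^ 2 * c.1) (D T ^ 3 * c.2)).ncard : ℝ))
        (fun T => Pool.Agent.TH841.SH.bd_selR (Pool.Agent.TH639.SL.disc_tw (hD0 T) a1)
          (Pool.Agent.TH639.SL.roots_tw he _)
          (Pool.Agent.TH841.NF.sel_tw2 a1 he (hD0 T) (c := 1) (P := D T) (w := 1)
            (by ring)).1)
        (fun T => Pool.Agent.W307.RG.fin_tw a1 he (hD0 T)) hq
      refine h1.trans (le_of_eq ?_)
      rw [hg]
      push_cast
      rfl
    have hb := Pool.Agent.TH841.NF.bdd_of hq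
    refine ⟨hb, ?_⟩
    have h2 := hq _ (Pool.Agent.TH841.NF.crk_mem hb)
    exact_mod_cast h2
  obtain ⟨Z, hZ1, hZ2⟩ := hexc
  refine ⟨fun H => ?_, ?_, ⟨Z, ?_, fun k => ?_⟩, fun A => ?_⟩
  · rw [Fam_eq]
    exact ⟨Finset.finite_toSet _, fun c hc => (key H c (Finset.mem_coe.1 hc)).1⟩
  · simp only [Fam_ncard]
    exact Pool.Agent.W307.RT.tendsto_of_low Pool.Agent.W672.FK.lowf
  · rw [proportion_eq]
    exact Pool.Agent.TH344.GT.tendsto_of_eps _ hZ1
  · obtain ⟨C, hC⟩ := hZ2 k
    refine ⟨C, fun H => ?_⟩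
    have h1 : Fam H \ Z =
        (((Pool.Agent.W307.RT.Cv 2 H).filter (fun c => c ∉ Z) : Finset (ℤ × ℤ)) :
          Set (ℤ × ℤ)) := by
      rw [Fam_eq]
      ext c
      simp
    rw [h1, finsum_mem_coe_finset, Fam_ncard]
    refine le_trans (Finset.sum_le_sum fun c hc => ?_) (hC H)
    apply pow_le_pow_left₀ (by positivity)
    exact_mod_cast (key H c (Finset.mem_filter.1 hc).1).2
  · simp only [upperDensity_eq]
    apply Pool.Agent.TH344.GT.tail _ (Pool.Agent.TH344.GT.EXC_prod _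
      fun T => Pool.Agent.TH344.DT.exc_tw (hD0 T)) 1
    intro r H c hc hr
    rw [pow_one]
    exact (Nat.pow_le_pow_right (by norm_num) hr).trans (key H c hc).2

end Pool.Agent.Results.MP_7cad78_nt.MultiquadraticTails
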